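import Pool.Agent.Lib.MP_414261_lc.Force

namespace Pool.Agent.Results.MP_414261_lc.GenericImage

open Cardinal Set Filter Pool.Agent.Lib.MP_414261_lc

universe u

/-- For a `κ`-complete, `ω₁`-saturated, nowhere ultra filter `W` on a regular uncountable `κ` and
every ordinal `τ`, densely many conditions `q` force `j τ = σ₁` and `j σ₁ = σ₂` for ordinals
`σ₁`, `σ₂` of the same cardinality. -/
theorem result (κ : Cardinal.{u}) (hreg : κ.IsRegular) (hunc : ℵ₀ < κ)
    (W : Filter κ.ord.ToType) (hcomp : CardinalInterFilter W κ)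
    (hsat : ∀ A : Set (Set κ.ord.ToType), (∀ a ∈ A, Pos W a) →
      (∀ a ∈ A, ∀ b ∈ A, a ≠ b → ¬ Pos W (a ∩ b)) → A.Countable)
    (hna : ∀ X, Pos W X → ¬ ∃ U : Ultrafilter κ.ord.ToType, (U : Filter _) = W ⊓ 𝓟 X)
    (τ : Ordinal.{u}) (p : Set κ.ord.ToType) (hp : Pos W p) :
    ∃ q ⊆ p, Pos W q ∧ ∃ σ₁ σ₂ : Ordinal.{u},
      Rep W q τ σ₁ ∧ Rep W q σ₁ σ₂ ∧ σ₁.card = σ₂.card := by
  have h1 : ∀ j, ∀ᶠ i in W, i ≠ j := fun j => by
    by_contra hc
    have h2 : Pos W {j} := hc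
    refine hna _ h2 ⟨pure j, le_antisymm (le_inf (fun s hs => ?_) (by simp)) ?_⟩
    · obtain ⟨i, rfl, hi⟩ := ((pos_iff.1 h2).and_eventually hs).exists
      exact hi
    · exact inf_le_right.trans (by simp)
  refine QM.main ⟨hreg, hunc, hcomp, ⟨fun h => hp (by rw [h]; exact mem_bot)⟩,
    pd_of_antichain W _ fun A a1 a2 => le_aleph0_iff_set_countable.2
      (hsat A a1 fun a ha b hb hab h => h (a2 ha hb hab)), fun k => ?_⟩ τ hp
  have := noMaxOrder hunc.le
  obtain ⟨k', hk⟩ := exists_gt k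
  refine ((eventually_cardinal_forall (mk_Iio_ord_toType k')).2
    fun j : Iio k' => h1 j.1).mono fun i hi => ?_
  by_contra hc
  exact hi ⟨i, (not_lt.1 hc).trans_lt hk⟩ rfl

end Pool.Agent.Results.MP_414261_lc.GenericImage
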